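import Pool.Agent.Turan97.Main
import Pool.Agent.Turan97.TData

/-!
# The data pass the check
-/

namespace Pool.Agent.Turan97

/-- The number with the digits `l` to the base `2 ^ w`. -/
def joinD (w : ℕ) (l : List ℕ) : ℕ := l.foldr (fun c acc => c + acc * 2 ^ w) 0

set_option maxRecDepth 100000 in
theorem check_data : check 15 (joinD (24 * 512) dA) (joinD (24 * 512) dC) (joinD (52 * 512) dU)
    (joinD (52 * 512) dV) = true := by
  decide +kernel

/-- The points. -/
theorem points : ∃ z : Fin 32768 → ℂ, (∃ i, z i = 1) ∧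
    ∀ k : ℕ, 1 ≤ k → k ≤ 32768 → ‖∑ i, z i ^ k‖ ≤ 6865 / 10000 :=
  main 15 (by norm_num) _ _ _ _ check_data

end Pool.Agent.Turan97
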