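import Mathlib

/-!
# From a solution of the recursion to complex numbers with given power sums
-/

namespace Pool.Agent.Turan97

open Finset Polynomial

/-- The monic polynomial with coefficients `p 0 = 1, p 1, …, p n` (from the top). -/
noncomputable def qpoly (n : ℕ) (p : ℕ → ℂ) : ℂ[X] :=
  ∑ j ∈ range (n + 1), C (p j) * X ^ (n - j)

theorem qpoly_coeff (n : ℕ) (p : ℕ → ℂ) (k : ℕ) (hk : k ≤ n) :
    (qpoly n p).coeff (n - k) = p k := by
  unfold qpoly
  rw [finsetSum_coeff]
  rw [Finset.sum_eq_single k]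
  · simp
  · intro j hj hjk
    rw [coeff_C_mul, coeff_X_pow, if_neg, mul_zero]
    have := mem_range.1 hj
    omega
  · intro h
    exact absurd (mem_range.2 (by omega)) h

theorem qpoly_natDegree_le (n : ℕ) (p : ℕ → ℂ) : (qpoly n p).natDegree ≤ n := by
  unfold qpoly
  refine natDegree_sum_le_of_forall_le _ _ ?_
  intro j _
  refine (natDegree_C_mul_X_pow_le _ _).trans (Nat.sub_le _ _)

theorem qpoly_monic (n : ℕ) (p : ℕ → ℂ) (h0 : p 0 = 1) : (qpoly n p).Monic := by
  apply monic_of_natDegree_le_of_coeff_eq_one n (qpoly_natDegree_le n p)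
  have := qpoly_coeff n p 0 (Nat.zero_le _)
  rw [Nat.sub_zero] at this
  rw [this, h0]

theorem qpoly_natDegree (n : ℕ) (p : ℕ → ℂ) (h0 : p 0 = 1) : (qpoly n p).natDegree = n := by
  refine le_antisymm (qpoly_natDegree_le n p) ?_
  apply le_natDegree_of_ne_zero
  have := qpoly_coeff n p 0 (Nat.zero_le _)
  rw [Nat.sub_zero] at this
  rw [this, h0]
  exact one_ne_zero

/-- Roots as a function. -/
theorem exists_roots (n : ℕ) (p : ℕ → ℂ) (h0 : p 0 = 1) :
    ∃ z : Fin n → ℂ, (Finset.univ.val.map z) = (qpoly n p).roots := by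
  have hs := IsAlgClosed.card_roots_eq_natDegree (p := qpoly n p)
  rw [qpoly_natDegree n p h0] at hs
  obtain ⟨l, hl⟩ := Quot.exists_rep (qpoly n p).roots
  have hlen : l.length = n := by
    rw [← hs, ← hl]; rfl
  subst hlen
  refine ⟨l.get, ?_⟩
  rw [← hl]
  rw [Fin.univ_val_map]
  simp

theorem esymm_roots (n : ℕ) (p : ℕ → ℂ) (h0 : p 0 = 1) (z : Fin n → ℂ)
    (hz : (Finset.univ.val.map z) = (qpoly n p).roots) (k : ℕ) (hk : k ≤ n) :
    (Finset.univ.val.map z).esymm k = (-1) ^ k * p k := by
  have hs := IsAlgClosed.card_roots_eq_natDegree (p := qpoly n p)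
  have hd := qpoly_natDegree n p h0
  have h := coeff_eq_esymm_roots_of_card (p := qpoly n p) hs (k := n - k) (by rw [hd]; omega)
  rw [qpoly_coeff n p k hk, (qpoly_monic n p h0).leadingCoeff, hd, one_mul] at h
  have e : n - (n - k) = k := by omega
  rw [e] at h
  rw [hz, h, ← mul_assoc, ← mul_pow]
  norm_num

/-- If `b` solves the recursion with data `s` and `b n = 0`, the `s k` are the power sums of `n`
complex numbers, one of which is `1`. -/
theorem exists_points (n : ℕ) (b s : ℕ → ℂ) (hb0 : b 0 = 1) (hbn : b n = 0)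
    (hrec : ∀ j, 1 ≤ j → j ≤ n → (j : ℂ) * b j = ∑ l ∈ range j, (1 - s (j - l)) * b l) :
    ∃ z : Fin n → ℂ, (∃ i, z i = 1) ∧ ∀ k, 1 ≤ k → k ≤ n → ∑ i, z i ^ k = s k := by
  classical
  set p : ℕ → ℂ := fun j => b j - (if j = 0 then 0 else b (j - 1)) with hp
  have hp0 : p 0 = 1 := by simp [hp, hb0]
  have hps : ∀ j, p (j + 1) = b (j + 1) - b j := by
    intro j; simp [hp]
  have hsum : ∀ m, ∑ j ∈ range (m + 1), p j = b m := by
    intro m
    induction m with
    | zero => simp [hp0, hb0]
    | succ m ih => rw [Finset.sum_range_succ, ih, hps]; ring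
  -- recursion for p
  have hprec : ∀ j, 1 ≤ j → j ≤ n → (j : ℂ) * p j = - ∑ l ∈ range j, s (j - l) * p l := by
    intro j hj hjn
    obtain ⟨m, rfl⟩ : ∃ m, j = m + 1 := ⟨j - 1, by omega⟩
    have h1 := hrec (m + 1) (by omega) hjn
    have key : ∑ l ∈ range (m + 1), (1 - s (m + 1 - l)) * p l =
        ((m + 1 : ℕ) : ℂ) * b (m + 1) - (m : ℂ) * b m := by
      rw [h1]
      rcases Nat.eq_zero_or_pos m with rfl | hm
      · simp [hp0, hb0]
      · rw [hrec m hm (by omega)]
        rw [Finset.sum_range_succ' _ m, Finset.sum_range_succ' (fun l => (1 - s (m + 1 - l)) * b l) m]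
        have : ∑ l ∈ range m, (1 - s (m + 1 - (l + 1))) * p (l + 1) =
            ∑ l ∈ range m, (1 - s (m + 1 - (l + 1))) * b (l + 1) -
              ∑ l ∈ range m, (1 - s (m - l)) * b l := by
          rw [← Finset.sum_sub_distrib]
          refine Finset.sum_congr rfl ?_
          intro l _
          rw [hps]
          have e : m + 1 - (l + 1) = m - l := by omega
          rw [e]
          ring
        rw [this, hp0, hb0]
        ring
    have h2 : ∑ l ∈ range (m + 1), (1 - s (m + 1 - l)) * p l =
        b m - ∑ l ∈ range (m + 1), s (m + 1 - l) * p l := by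
      rw [← hsum m, ← Finset.sum_sub_distrib]
      refine Finset.sum_congr rfl ?_
      intro l _; ring
    rw [h2] at key
    rw [hps]
    have key2 : ∑ l ∈ range (m + 1), s (m + 1 - l) * p l =
        b m - ((m + 1 : ℕ) : ℂ) * b (m + 1) + (m : ℂ) * b m := by
      linear_combination -key
    rw [key2]
    push_cast
    ring
  obtain ⟨z, hz⟩ := exists_roots n p hp0
  refine ⟨z, ?_, ?_⟩
  · have hroot : (1 : ℂ) ∈ (qpoly n p).roots := by
      rw [mem_roots (qpoly_monic n p hp0).ne_zero, IsRoot.def]
      unfold qpoly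
      rw [eval_finsetSum]
      simp only [eval_mul, eval_C, eval_pow, eval_X, one_pow, mul_one]
      rw [hsum n, hbn]
    rw [← hz] at hroot
    obtain ⟨i, _, hi⟩ := Multiset.mem_map.1 hroot
    exact ⟨i, hi⟩
  · -- Newton
    have hesymm : ∀ k, k ≤ n → (Finset.univ.val.map z).esymm k = (-1) ^ k * p k :=
      fun k hk => esymm_roots n p hp0 z hz k hk
    have hnewton : ∀ k, 1 ≤ k → k ≤ n →
        (k : ℂ) * p k = - ∑ l ∈ range k, (∑ i, z i ^ (k - l)) * p l := by
      intro k hk hkn
      have h := congrArg (MvPolynomial.aeval z) (MvPolynomial.mul_esymm_eq_sum (Fin n) ℂ k)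
      rw [map_mul, map_natCast, MvPolynomial.aeval_esymm_eq_multiset_esymm, hesymm k hkn,
        map_mul, map_sum] at h
      have h3 : ∑ a ∈ antidiagonal k with a.1 < k, MvPolynomial.aeval z
          ((-1) ^ a.1 * MvPolynomial.esymm (Fin n) ℂ a.1 * MvPolynomial.psum (Fin n) ℂ a.2) =
          ∑ l ∈ range k, (∑ i, z i ^ (k - l)) * p l := by
        refine Finset.sum_bij' (fun a _ => a.1) (fun l _ => (l, k - l)) ?_ ?_ ?_ ?_ ?_
        · intro a ha
          simp only [Finset.mem_filter, Finset.HasAntidiagonal.mem_antidiagonal] at ha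
          exact mem_range.2 ha.2
        · intro l hl
          have := mem_range.1 hl
          simp only [Finset.mem_filter, Finset.HasAntidiagonal.mem_antidiagonal]
          omega
        · intro a ha
          simp only [Finset.mem_filter, Finset.HasAntidiagonal.mem_antidiagonal] at ha
          ext <;> simp <;> omega
        · intro l hl; rfl
        · intro a ha
          simp only [Finset.mem_filter, Finset.HasAntidiagonal.mem_antidiagonal] at ha
          have e : k - a.1 = a.2 := by omega
          rw [map_mul, map_mul, map_pow, map_neg, map_one,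
            MvPolynomial.aeval_esymm_eq_multiset_esymm, hesymm a.1 (by omega), e,
            MvPolynomial.psum, map_sum]
          simp only [map_pow, MvPolynomial.aeval_X]
          have h4 : ((-1 : ℂ) ^ a.1) * ((-1 : ℂ) ^ a.1) = 1 := by
            rw [← mul_pow]; norm_num
          linear_combination (∑ x, z x ^ a.2) * p a.1 * h4
      rw [h3, map_pow, map_neg, map_one] at h
      have h4 : ((-1 : ℂ) ^ k) * ((-1 : ℂ) ^ k) = 1 := by
        rw [← mul_pow]; norm_num
      have h5 : (-1 : ℂ) ^ k * ((k : ℂ) * ((-1) ^ k * p k)) = (-1 : ℂ) ^ k *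
          ((-1) ^ (k + 1) * ∑ l ∈ range k, (∑ i, z i ^ (k - l)) * p l) := by rw [h]
      have h6 : (-1 : ℂ) ^ k * ((k : ℂ) * ((-1) ^ k * p k)) = (k : ℂ) * p k := by
        linear_combination (k : ℂ) * p k * h4
      rw [h6] at h5
      rw [h5, pow_succ]
      linear_combination (-(∑ l ∈ range k, (∑ i, z i ^ (k - l)) * p l)) * h4
    -- uniqueness
    intro k
    induction k using Nat.strong_induction_on with
    | _ k ih =>
      intro hk hkn
      have h1 := hnewton k hk hkn
      rw [hprec k hk hkn] at h1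
      obtain ⟨m, rfl⟩ : ∃ m, k = m + 1 := ⟨k - 1, by omega⟩
      rw [Finset.sum_range_succ' _ m, Finset.sum_range_succ' _ m] at h1
      have h2 : ∑ l ∈ range m, s (m + 1 - (l + 1)) * p (l + 1) =
          ∑ l ∈ range m, (∑ i, z i ^ (m + 1 - (l + 1))) * p (l + 1) := by
        refine Finset.sum_congr rfl ?_
        intro l hl
        have := mem_range.1 hl
        rw [ih (m + 1 - (l + 1)) (by omega) (by omega) (by omega)]
      rw [h2, hp0, Nat.sub_zero, mul_one, mul_one] at h1
      have h3 := neg_injective h1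
      exact (add_left_cancel h3).symm

end Pool.Agent.Turan97
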