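import Mathlib
import Pool.Agent.Turan97.Newton

/-!
# Approximate solutions of the recursion
-/

namespace Pool.Agent.Turan97

open Finset

/-- The solution of the recursion `j b_j = ∑_{l < j} (1 - s_{j-l}) b_l`, `b_0 = 1`. -/
noncomputable def bs (s : ℕ → ℂ) : ℕ → ℂ
  | 0 => 1
  | (j + 1) => (∑ l : Fin (j + 1), (1 - s (j + 1 - l)) * bs s l) / ((j : ℂ) + 1)
termination_by j => j
decreasing_by exact l.2

theorem bs_zero (s : ℕ → ℂ) : bs s 0 = 1 := by rw [bs]

theorem bs_rec (s : ℕ → ℂ) (j : ℕ) (hj : 1 ≤ j) :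
    (j : ℂ) * bs s j = ∑ l ∈ range j, (1 - s (j - l)) * bs s l := by
  obtain ⟨m, rfl⟩ : ∃ m, j = m + 1 := ⟨j - 1, by omega⟩
  rw [bs, Finset.sum_range]
  have : ((m : ℂ) + 1) ≠ 0 := by
    have := Nat.cast_add_one_ne_zero (R := ℂ) m
    exact this
  push_cast
  field_simp

theorem sum_range_cast (j : ℕ) : ∑ l ∈ range j, (l : ℝ) * 2 = (j : ℝ) * (j - 1) := by
  induction j with
  | zero => simp
  | succ j ih => rw [Finset.sum_range_succ, ih]; push_cast; ring

/-- Error estimate. -/
theorem bs_error (n : ℕ) (s β : ℕ → ℂ) (δ : ℝ) (hδ : 0 ≤ δ)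
    (hs : ∀ k, 1 ≤ k → k < n → ‖s k‖ ≤ 1) (hβ0 : β 0 = 1)
    (hβ : ∀ j, 1 ≤ j → j < n →
      ‖(j : ℂ) * β j - ∑ l ∈ range j, (1 - s (j - l)) * β l‖ ≤ δ * j) :
    ∀ j, j < n → ‖β j - bs s j‖ ≤ δ * j := by
  intro j
  induction j using Nat.strong_induction_on with
  | _ j ih =>
    intro hj
    rcases Nat.eq_zero_or_pos j with rfl | hpos
    · simp [hβ0, bs_zero]
    · have h1 := hβ j hpos hj
      have h2 := bs_rec s j hpos
      have h3 : (j : ℂ) * (β j - bs s j) =
          ((j : ℂ) * β j - ∑ l ∈ range j, (1 - s (j - l)) * β l) +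
            ∑ l ∈ range j, (1 - s (j - l)) * (β l - bs s l) := by
        have : ∑ l ∈ range j, (1 - s (j - l)) * (β l - bs s l) =
            ∑ l ∈ range j, (1 - s (j - l)) * β l - ∑ l ∈ range j, (1 - s (j - l)) * bs s l := by
          rw [← Finset.sum_sub_distrib]
          exact Finset.sum_congr rfl (fun l _ => by ring)
        rw [this, ← h2]
        ring
      have h4 : ‖∑ l ∈ range j, (1 - s (j - l)) * (β l - bs s l)‖ ≤
          ∑ l ∈ range j, δ * ((l : ℝ) * 2) := by
        refine (norm_sum_le _ _).trans (Finset.sum_le_sum ?_)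
        intro l hl
        have hl' := mem_range.1 hl
        rw [norm_mul]
        have a1 : ‖1 - s (j - l)‖ ≤ 2 := by
          refine (norm_sub_le _ _).trans ?_
          have := hs (j - l) (by omega) (by omega)
          rw [norm_one]; linarith
        have a2 := ih l hl' (by omega)
        have a3 : 0 ≤ δ * (l : ℝ) := by positivity
        calc ‖1 - s (j - l)‖ * ‖β l - bs s l‖ ≤ 2 * (δ * l) :=
              mul_le_mul a1 a2 (norm_nonneg _) (by norm_num)
          _ = δ * (l * 2) := by ring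
      rw [← Finset.mul_sum, sum_range_cast] at h4
      have h5 : ‖(j : ℂ) * (β j - bs s j)‖ ≤ δ * j + δ * (j * (j - 1)) := by
        rw [h3]
        exact (norm_add_le _ _).trans (add_le_add h1 h4)
      rw [norm_mul, Complex.norm_natCast] at h5
      have hjp : (0 : ℝ) < j := by exact_mod_cast hpos
      have h6 : (j : ℝ) * ‖β j - bs s j‖ ≤ (j : ℝ) * (δ * j) := by
        refine h5.trans (le_of_eq ?_)
        ring
      exact le_of_mul_le_mul_left h6 hjp

/-- From an approximate solution to `n` complex numbers. -/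
theorem exists_points_of_approx (n : ℕ) (hn : 1 ≤ n) (s β : ℕ → ℂ) (c δ : ℝ) (hc : c ≤ 1)
    (hδ : 0 ≤ δ) (hs : ∀ k, 1 ≤ k → k < n → ‖s k‖ ≤ c) (hβ0 : β 0 = 1)
    (hβ : ∀ j, 1 ≤ j → j < n →
      ‖(j : ℂ) * β j - ∑ l ∈ range j, (1 - s (j - l)) * β l‖ ≤ δ * j)
    (hlast : ‖1 + ∑ l ∈ range (n - 1), (1 - s (n - (l + 1))) * β (l + 1)‖ + δ * (n * (n - 1)) ≤ c) :
    ∃ z : Fin n → ℂ, (∃ i, z i = 1) ∧ ∀ k, 1 ≤ k → k ≤ n → ‖∑ i, z i ^ k‖ ≤ c := by
  classical
  have herr := bs_error n s β δ hδ (fun k h1 h2 => (hs k h1 h2).trans hc) hβ0 hβ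
  set τ : ℂ := 1 + ∑ l ∈ range (n - 1), (1 - s (n - (l + 1))) * bs s (l + 1) with hτ
  have hτn : ‖τ‖ ≤ c := by
    have h1 : τ = (1 + ∑ l ∈ range (n - 1), (1 - s (n - (l + 1))) * β (l + 1)) -
        ∑ l ∈ range (n - 1), (1 - s (n - (l + 1))) * (β (l + 1) - bs s (l + 1)) := by
      have : ∑ l ∈ range (n - 1), (1 - s (n - (l + 1))) * (β (l + 1) - bs s (l + 1)) =
          ∑ l ∈ range (n - 1), (1 - s (n - (l + 1))) * β (l + 1) -
            ∑ l ∈ range (n - 1), (1 - s (n - (l + 1))) * bs s (l + 1) := by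
        rw [← Finset.sum_sub_distrib]
        exact Finset.sum_congr rfl (fun l _ => by ring)
      rw [this, hτ]
      ring
    have h2 : ‖∑ l ∈ range (n - 1), (1 - s (n - (l + 1))) * (β (l + 1) - bs s (l + 1))‖ ≤
        δ * (n * (n - 1)) := by
      refine (norm_sum_le _ _).trans ?_
      have h3 : ∑ l ∈ range (n - 1), ‖(1 - s (n - (l + 1))) * (β (l + 1) - bs s (l + 1))‖ ≤
          ∑ l ∈ range (n - 1), δ * (((l + 1 : ℕ) : ℝ) * 2) := by
        refine Finset.sum_le_sum ?_
        intro l hl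
        have hl' := mem_range.1 hl
        rw [norm_mul]
        have a1 : ‖1 - s (n - (l + 1))‖ ≤ 2 := by
          refine (norm_sub_le _ _).trans ?_
          have := hs (n - (l + 1)) (by omega) (by omega)
          rw [norm_one]; linarith
        have a2 := herr (l + 1) (by omega)
        calc ‖1 - s (n - (l + 1))‖ * ‖β (l + 1) - bs s (l + 1)‖ ≤ 2 * (δ * ((l + 1 : ℕ) : ℝ)) :=
              mul_le_mul a1 a2 (norm_nonneg _) (by norm_num)
          _ = δ * (((l + 1 : ℕ) : ℝ) * 2) := by ring
      refine h3.trans (le_of_eq ?_)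
      rw [← Finset.mul_sum]
      congr 1
      have h4 := sum_range_cast n
      obtain ⟨m, rfl⟩ : ∃ m, n = m + 1 := ⟨n - 1, by omega⟩
      rw [Finset.sum_range_succ'] at h4
      simp only [Nat.add_sub_cancel]
      simpa using h4
    rw [h1]
    exact (norm_sub_le _ _).trans (by linarith)
  -- the modified sequences
  set s' : ℕ → ℂ := fun k => if k = n then τ else s k with hs'
  set b' : ℕ → ℂ := fun j => if j = n then 0 else bs s j with hb'
  obtain ⟨z, hz1, hz⟩ := exists_points n b' s' (by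
      simp only [hb']
      rw [if_neg (by omega), bs_zero]) (by simp [hb']) (by
      intro j hj hjn
      rcases Nat.lt_or_ge j n with hlt | hge
      · have h1 := bs_rec s j hj
        simp only [hb', hs']
        rw [if_neg (by omega), h1]
        refine Finset.sum_congr rfl ?_
        intro l hl
        have hl' := mem_range.1 hl
        rw [if_neg (by omega), if_neg (by omega)]
      · have hjn' : j = n := le_antisymm hjn hge
        subst hjn'
        obtain ⟨m, rfl⟩ : ∃ m, j = m + 1 := ⟨j - 1, by omega⟩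
        rw [Finset.sum_range_succ']
        have h1 : ∑ l ∈ range m, (1 - s' (m + 1 - (l + 1))) * b' (l + 1) =
            ∑ l ∈ range m, (1 - s (m + 1 - (l + 1))) * bs s (l + 1) := by
          refine Finset.sum_congr rfl ?_
          intro l hl
          have hl' := mem_range.1 hl
          simp only [hb', hs']
          rw [if_neg (by omega), if_neg (by omega)]
        rw [h1]
        have h2 : b' (m + 1) = 0 := by simp [hb']
        have h3 : s' (m + 1 - 0) = τ := by simp [hs']
        have h4 : b' 0 = 1 := by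
          simp only [hb']
          rw [if_neg (by omega), bs_zero]
        rw [h2, h3, h4, hτ]
        simp only [Nat.add_sub_cancel]
        ring)
  refine ⟨z, hz1, ?_⟩
  intro k hk hkn
  rw [hz k hk hkn]
  simp only [hs']
  split_ifs with h
  · exact hτn
  · exact hs k hk (by omega)

end Pool.Agent.Turan97
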