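import Mathlib

/-!
# Digits, spreading and checking by bisection
-/

namespace Pool.Agent.Turan97

open Finset

/-- Digit number `k` of `N` in base `q`. -/
def dg (q N k : ℕ) : ℕ := N / q ^ k % q

theorem dg_mod (q N M k : ℕ) (hk : k < M) : dg q (N % q ^ M) k = dg q N k := by
  unfold dg
  obtain ⟨d, rfl⟩ : ∃ d, M = k + (d + 1) := ⟨M - k - 1, by omega⟩
  rw [pow_add, Nat.mod_mul_right_div_self]
  exact Nat.mod_mod_of_dvd _ (dvd_pow_self q (Nat.succ_ne_zero d))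

theorem dg_div (q N M k : ℕ) : dg q (N / q ^ M) k = dg q N (M + k) := by
  unfold dg
  rw [Nat.div_div_eq_div_mul, pow_add]

/-- Move the digits of `N` in base `q` (there are `2 ^ m` of them) to base `X`. -/
def spread (q X m : ℕ) : ℕ → ℕ :=
  Nat.rec (motive := fun _ => ℕ → ℕ) (fun N => N)
    (fun m ih N => ih (N % q ^ (2 ^ m)) + X ^ (2 ^ m) * ih (N / q ^ (2 ^ m))) m

theorem spread_eq (q X : ℕ) (m : ℕ) : ∀ N, N < q ^ (2 ^ m) →
    spread q X m N = ∑ k ∈ range (2 ^ m), dg q N k * X ^ k := by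
  induction m with
  | zero =>
    intro N hN
    rw [pow_zero, pow_one] at hN
    simp [spread, dg, Nat.mod_eq_of_lt hN]
  | succ m ih =>
    intro N hN
    have hq : 0 < q ^ (2 ^ m) := by
      rcases Nat.eq_zero_or_pos (q ^ (2 ^ m)) with h | h
      · have : q ^ (2 ^ (m + 1)) = 0 := by
          rw [pow_succ 2 m, pow_mul, h]; simp
        omega
      · exact h
    have e : spread q X (m + 1) N = spread q X m (N % q ^ (2 ^ m)) +
        X ^ (2 ^ m) * spread q X m (N / q ^ (2 ^ m)) := rfl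
    rw [e, ih _ (Nat.mod_lt _ hq), ih _ (by
      rw [Nat.div_lt_iff_lt_mul hq, ← pow_add, ← two_mul, ← pow_succ']
      exact hN)]
    rw [pow_succ 2 m, mul_two, Finset.sum_range_add, Finset.mul_sum]
    congr 1
    · refine Finset.sum_congr rfl ?_
      intro k hk
      rw [dg_mod _ _ _ _ (mem_range.1 hk)]
    · refine Finset.sum_congr rfl ?_
      intro k _
      rw [dg_div, pow_add]
      ring

/-- Check a condition on all digits of six numbers by bisection. -/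
def chk (leaf : ℕ → ℕ → ℕ → ℕ → ℕ → ℕ → ℕ → Bool) (qa qu X m : ℕ) :
    ℕ → ℕ → ℕ → ℕ → ℕ → ℕ → ℕ → Bool :=
  Nat.rec (motive := fun _ => ℕ → ℕ → ℕ → ℕ → ℕ → ℕ → ℕ → Bool) leaf
    (fun m ih i a c u v r t =>
      and (ih i (a % qa ^ (2 ^ m)) (c % qa ^ (2 ^ m)) (u % qu ^ (2 ^ m)) (v % qu ^ (2 ^ m))
        (r % X ^ (2 ^ m)) (t % X ^ (2 ^ m)))
      (ih (i + 2 ^ m) (a / qa ^ (2 ^ m)) (c / qa ^ (2 ^ m)) (u / qu ^ (2 ^ m)) (v / qu ^ (2 ^ m))
        (r / X ^ (2 ^ m)) (t / X ^ (2 ^ m)))) m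

theorem chk_spec (leaf : ℕ → ℕ → ℕ → ℕ → ℕ → ℕ → ℕ → Bool) (qa qu X : ℕ) (hqa : 0 < qa)
    (hqu : 0 < qu) (hX : 0 < X) (m : ℕ) : ∀ i a c u v r t,
    a < qa ^ (2 ^ m) → c < qa ^ (2 ^ m) → u < qu ^ (2 ^ m) → v < qu ^ (2 ^ m) →
    r < X ^ (2 ^ m) → t < X ^ (2 ^ m) → chk leaf qa qu X m i a c u v r t = true →
    ∀ k < 2 ^ m, leaf (i + k) (dg qa a k) (dg qa c k) (dg qu u k) (dg qu v k) (dg X r k)
      (dg X t k) = true := by
  have aux : ∀ q N m, N < q ^ (2 ^ (m + 1)) → 0 < q → N / q ^ (2 ^ m) < q ^ (2 ^ m) := by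
    intro q N m hN hq
    rw [Nat.div_lt_iff_lt_mul (pow_pos hq _), ← pow_add, ← two_mul, ← pow_succ']
    exact hN
  induction m with
  | zero =>
    intro i a c u v r t ha hc hu hv hr ht h k hk
    rw [pow_zero, pow_one] at ha hc hu hv hr ht
    have hk0 : k = 0 := by simpa using hk
    subst hk0
    simpa [dg, Nat.mod_eq_of_lt ha, Nat.mod_eq_of_lt hc, Nat.mod_eq_of_lt hu, Nat.mod_eq_of_lt hv,
      Nat.mod_eq_of_lt hr, Nat.mod_eq_of_lt ht, chk] using h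
  | succ m ih =>
    intro i a c u v r t ha hc hu hv hr ht h k hk
    have e : chk leaf qa qu X (m + 1) i a c u v r t =
      and (chk leaf qa qu X m i (a % qa ^ (2 ^ m)) (c % qa ^ (2 ^ m)) (u % qu ^ (2 ^ m))
        (v % qu ^ (2 ^ m)) (r % X ^ (2 ^ m)) (t % X ^ (2 ^ m)))
      (chk leaf qa qu X m (i + 2 ^ m) (a / qa ^ (2 ^ m)) (c / qa ^ (2 ^ m)) (u / qu ^ (2 ^ m))
        (v / qu ^ (2 ^ m)) (r / X ^ (2 ^ m)) (t / X ^ (2 ^ m))) := rfl
    rw [e, Bool.and_eq_true] at h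
    rcases Nat.lt_or_ge k (2 ^ m) with hlt | hge
    · have := ih i _ _ _ _ _ _ (Nat.mod_lt _ (pow_pos hqa _)) (Nat.mod_lt _ (pow_pos hqa _))
        (Nat.mod_lt _ (pow_pos hqu _)) (Nat.mod_lt _ (pow_pos hqu _)) (Nat.mod_lt _ (pow_pos hX _))
        (Nat.mod_lt _ (pow_pos hX _)) h.1 k hlt
      rwa [dg_mod _ _ _ _ hlt, dg_mod _ _ _ _ hlt, dg_mod _ _ _ _ hlt, dg_mod _ _ _ _ hlt,
        dg_mod _ _ _ _ hlt, dg_mod _ _ _ _ hlt] at this
    · obtain ⟨d, rfl⟩ : ∃ d, k = 2 ^ m + d := ⟨k - 2 ^ m, by omega⟩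
      have hd : d < 2 ^ m := by
        rw [pow_succ] at hk
        omega
      have := ih (i + 2 ^ m) _ _ _ _ _ _ (aux _ _ _ ha hqa) (aux _ _ _ hc hqa) (aux _ _ _ hu hqu)
        (aux _ _ _ hv hqu) (aux _ _ _ hr hX) (aux _ _ _ ht hX) h.2 d hd
      rwa [dg_div, dg_div, dg_div, dg_div, dg_div, dg_div, add_assoc] at this

/-- Digits of a sum. -/
theorem dg_sum (X : ℕ) (hX : 0 < X) : ∀ (j M : ℕ) (d : ℕ → ℕ), (∀ s, d s < X) → j < M →
    dg X (∑ s ∈ range M, d s * X ^ s) j = d j := by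
  intro j
  induction j with
  | zero =>
    intro M d hd hj
    obtain ⟨M', rfl⟩ : ∃ M', M = M' + 1 := ⟨M - 1, by omega⟩
    rw [Finset.sum_range_succ']
    unfold dg
    rw [pow_zero, Nat.div_one, mul_one]
    have : ∑ k ∈ range M', d (k + 1) * X ^ (k + 1) = X * ∑ k ∈ range M', d (k + 1) * X ^ k := by
      rw [Finset.mul_sum]
      exact Finset.sum_congr rfl (fun k _ => by ring)
    rw [this, Nat.mul_add_mod, Nat.mod_eq_of_lt (hd 0)]
  | succ j ih =>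
    intro M d hd hj
    obtain ⟨M', rfl⟩ : ∃ M', M = M' + 1 := ⟨M - 1, by omega⟩
    have h := ih M' (fun s => d (s + 1)) (fun s => hd (s + 1)) (by omega)
    rw [Finset.sum_range_succ']
    have h2 : ∑ k ∈ range M', d (k + 1) * X ^ (k + 1) = X * ∑ k ∈ range M', d (k + 1) * X ^ k := by
      rw [Finset.mul_sum]
      exact Finset.sum_congr rfl (fun k _ => by ring)
    rw [h2, pow_zero, mul_one]
    unfold dg at h ⊢
    rw [pow_succ', ← Nat.div_div_eq_div_mul, Nat.mul_add_div hX, Nat.div_eq_of_lt (hd 0), add_zero]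
    exact h

end Pool.Agent.Turan97
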