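import Mathlib
import Pool.Agent.Turan97.Digits

/-!
# Convolutions through one multiplication
-/

namespace Pool.Agent.Turan97

open Finset

/-- Coefficient number `s` of the product of two polynomials with `N` coefficients. -/
def cf (N : ℕ) (f g : ℕ → ℤ) (s : ℕ) : ℤ :=
  ∑ l ∈ range N, if l ≤ s ∧ s - l < N then f (s - l) * g l else 0

theorem conv_eval (N : ℕ) (f g : ℕ → ℤ) (X : ℤ) :
    (∑ k ∈ range N, f k * X ^ k) * (∑ l ∈ range N, g l * X ^ l) =
      ∑ s ∈ range (2 * N), cf N f g s * X ^ s := by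
  unfold cf
  rw [Finset.sum_mul_sum, Finset.sum_comm]
  simp only [Finset.sum_mul]
  rw [Finset.sum_comm (s := range (2 * N))]
  refine Finset.sum_congr rfl ?_
  intro l hl
  have hl' := mem_range.1 hl
  have h1 : ∑ s ∈ range (2 * N), (if l ≤ s ∧ s - l < N then f (s - l) * g l else 0) * X ^ s =
      ∑ s ∈ (range (2 * N)).filter (fun s => l ≤ s ∧ s - l < N), f (s - l) * g l * X ^ s := by
    rw [Finset.sum_filter]
    refine Finset.sum_congr rfl ?_
    intro s _
    split_ifs <;> simp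
  rw [h1]
  refine Finset.sum_nbij' (fun k => l + k) (fun s => s - l) ?_ ?_ ?_ ?_ ?_
  · intro k hk
    have := mem_range.1 hk
    simp only [Finset.mem_filter, Finset.mem_range]
    omega
  · intro s hs
    simp only [Finset.mem_filter, Finset.mem_range] at hs
    exact mem_range.2 hs.2.2
  · intro k _; simp
  · intro s hs
    simp only [Finset.mem_filter, Finset.mem_range] at hs
    omega
  · intro k _
    rw [Nat.add_sub_cancel_left, pow_add]
    ring

theorem cf_lt (N : ℕ) (f g : ℕ → ℤ) (hf : f 0 = 0) (s : ℕ) (hs : s < N) :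
    cf N f g s = ∑ l ∈ range s, f (s - l) * g l := by
  unfold cf
  obtain ⟨d, rfl⟩ : ∃ d, N = s + (d + 1) := ⟨N - s - 1, by omega⟩
  rw [Finset.sum_range_add]
  have h1 : ∑ x ∈ range (d + 1), (if s + x ≤ s ∧ s - (s + x) < s + (d + 1) then
      f (s - (s + x)) * g (s + x) else 0) = 0 := by
    refine Finset.sum_eq_zero ?_
    intro x _
    split_ifs with h
    · have : s - (s + x) = 0 := by omega
      rw [this, hf, zero_mul]
    · rfl
  rw [h1, add_zero]
  refine Finset.sum_congr rfl ?_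
  intro l hl
  have := mem_range.1 hl
  rw [if_pos (by omega)]

theorem cf_self (N : ℕ) (hN : 1 ≤ N) (f g : ℕ → ℤ) :
    cf N f g N = ∑ l ∈ range (N - 1), f (N - (l + 1)) * g (l + 1) := by
  unfold cf
  obtain ⟨d, rfl⟩ : ∃ d, N = d + 1 := ⟨N - 1, by omega⟩
  rw [Finset.sum_range_succ']
  rw [if_neg (by omega), add_zero, Nat.add_sub_cancel]
  refine Finset.sum_congr rfl ?_
  intro l hl
  have := mem_range.1 hl
  rw [if_pos (by omega)]

theorem cf_abs_le (N : ℕ) (f g : ℕ → ℤ) (F G : ℤ) (hF : 0 ≤ F) (hG : 0 ≤ G)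
    (hf : ∀ k, |f k| ≤ F) (hg : ∀ k, |g k| ≤ G) (s : ℕ) : |cf N f g s| ≤ N * (F * G) := by
  unfold cf
  refine (Finset.abs_sum_le_sum_abs _ _).trans ?_
  have : ∑ l ∈ range N, |if l ≤ s ∧ s - l < N then f (s - l) * g l else 0| ≤
      ∑ l ∈ range N, F * G := by
    refine Finset.sum_le_sum ?_
    intro l _
    split_ifs
    · rw [abs_mul]
      exact mul_le_mul (hf _) (hg _) (abs_nonneg _) hF
    · rw [abs_zero]; positivity
  refine this.trans ?_
  simp

/-- Digits of a nonnegative integer given as a sum. -/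
theorem dg_toNat (X : ℕ) (hX : 0 < X) (M j : ℕ) (hj : j < M) (g : ℕ → ℤ)
    (hg : ∀ s, 0 ≤ g s ∧ g s < X) (P Q : ℕ)
    (h : (P : ℤ) - Q = ∑ s ∈ range M, g s * (X : ℤ) ^ s) :
    (dg X (P - Q) j : ℤ) = g j := by
  have h1 : ∀ s, ((g s).toNat : ℤ) = g s := fun s => Int.toNat_of_nonneg (hg s).1
  have h2 : (P : ℤ) - Q = ((∑ s ∈ range M, (g s).toNat * X ^ s : ℕ) : ℤ) := by
    rw [h]
    push_cast
    refine Finset.sum_congr rfl ?_
    intro s _
    rw [Int.toNat_of_nonneg (hg s).1]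
  have h3 : P - Q = ∑ s ∈ range M, (g s).toNat * X ^ s := by omega
  rw [h3, dg_sum X hX j M (fun s => (g s).toNat) (by
    intro s
    have := hg s
    have := h1 s
    omega) hj]
  exact h1 j

end Pool.Agent.Turan97
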