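import Mathlib
import Pool.Agent.Turan97.Conv
import Pool.Agent.Turan97.Approx

/-!
# The check and what it proves
-/

namespace Pool.Agent.Turan97

open Finset

/-- Condition on the digits number `0`. -/
def leaf0 (a c u v : ℕ) : Bool :=
  and (Nat.beq a 0) (and (Nat.beq c 8388608) (and (Nat.beq u 1407374883553280)
    (Nat.beq v 1125899906842624)))

/-- Condition on the modulus of a power sum. -/
def leafS (a c : ℕ) : Bool :=
  Nat.ble (100000000 * (a * a + 17592186044416 + c * c + 70368744177664))
    (47128225 * 17592186044416 + 100000000 * (8388608 * a + 16777216 * c))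

/-- Condition on a residual. -/
def leafR (i u r : ℕ) : Bool :=
  and (Nat.ble (2 * (r + 4194304 * i * 1125899906842624))
      (2 * (4194304 * i * u + 39614081257132168796771975168) + 4194304 * i))
    (Nat.ble (2 * (4194304 * i * u + 39614081257132168796771975168))
      (2 * (r + 4194304 * i * 1125899906842624) + 4194304 * i))

/-- Condition on the digits number `i`. Constants: `2 ^ 22` (denominator of the power sums),
`2 ^ 23` (offset of the imaginary parts), `2 ^ 50` (offset of the approximate coefficients, which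
are multiples of `2 ^ (-48)`), `2 ^ 95` (offset of the convolutions). -/
def leaf (i a c u v r t : ℕ) : Bool :=
  bif Nat.beq i 0 then leaf0 a c u v
  else and (leafS a c) (and (leafR i u r) (leafR i v t))

/-- Real parts of the convolutions. -/
def bigR (A C U V O P : ℕ) : ℕ :=
  (A * U + 1125899906842624 * O * C + 8388608 * O * V + 39614081257132168796771975168 * P) -
    (1125899906842624 * O * A + C * V + 8388608 * 1125899906842624 * (O * O))

/-- Imaginary parts of the convolutions. -/
def bigT (A C U V O P : ℕ) : ℕ :=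
  (A * V + C * U + 8388608 * 1125899906842624 * (O * O) + 39614081257132168796771975168 * P) -
    (1125899906842624 * O * A + 8388608 * O * U + 1125899906842624 * O * C)

/-- Last condition. -/
def lastOk (r t : ℕ) : Bool :=
  decide (10000000000 * (((4194304 * 281474976710656 : ℤ) + r - 39614081257132168796771975168) ^ 2 +
    ((t : ℤ) - 39614081257132168796771975168) ^ 2) ≤
      4712685201 * (4194304 * 281474976710656) ^ 2)

/-- `1 + X + … + X ^ (M - 1)`. -/
def ones (X M : ℕ) : ℕ := (X ^ M - 1) / (X - 1)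

/-- Conditions on the two large numbers. -/
def check2 (m NA NC NU NV R T : ℕ) : Bool :=
  and (lastOk (dg (2 ^ 96) R (2 ^ m)) (dg (2 ^ 96) T (2 ^ m)))
    (chk leaf (2 ^ 24) (2 ^ 52) (2 ^ 96) m 0 NA NC NU NV (R % (2 ^ 96) ^ (2 ^ m))
      (T % (2 ^ 96) ^ (2 ^ m)))

/-- The whole check. -/
def check (m NA NC NU NV : ℕ) : Bool :=
  and (and (and (Nat.blt NA ((2 ^ 24) ^ (2 ^ m))) (Nat.blt NC ((2 ^ 24) ^ (2 ^ m))))
    (and (Nat.blt NU ((2 ^ 52) ^ (2 ^ m))) (Nat.blt NV ((2 ^ 52) ^ (2 ^ m)))))
  ((fun A C U V O P : ℕ => check2 m NA NC NU NV (bigR A C U V O P) (bigT A C U V O P))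
    (spread (2 ^ 24) (2 ^ 96) m NA) (spread (2 ^ 24) (2 ^ 96) m NC)
    (spread (2 ^ 52) (2 ^ 96) m NU) (spread (2 ^ 52) (2 ^ 96) m NV)
    (ones (2 ^ 96) (2 ^ m)) (ones (2 ^ 96) (2 * 2 ^ m)))

theorem ones_eq (X M : ℕ) (hX : 2 ≤ X) : ones X M = ∑ k ∈ range M, X ^ k :=
  (Nat.geomSum_eq hX M).symm

theorem dg_lt (q N k : ℕ) (hq : 0 < q) : dg q N k < q := Nat.mod_lt _ hq

end Pool.Agent.Turan97
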