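import Mathlib

/-!
# Elementary estimates used for the check
-/

namespace Pool.Agent.Turan97

theorem norm_le_of_sq (x y r : ℝ) (hr : 0 ≤ r) (h : x ^ 2 + y ^ 2 ≤ r ^ 2) :
    ‖(x : ℂ) + (y : ℂ) * Complex.I‖ ≤ r := by
  have h1 : ‖(x : ℂ) + (y : ℂ) * Complex.I‖ ^ 2 ≤ r ^ 2 := by
    rw [← Complex.normSq_eq_norm_sq, Complex.normSq_add_mul_I]
    exact h
  exact (sq_le_sq₀ (norm_nonneg _) hr).1 h1

theorem norm_le_abs (x y : ℝ) : ‖(x : ℂ) + (y : ℂ) * Complex.I‖ ≤ |x| + |y| := by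
  refine (norm_add_le _ _).trans ?_
  rw [norm_mul, Complex.norm_I, mul_one, Complex.norm_real, Complex.norm_real]
  rfl

/-- Size of a power sum. -/
theorem size_le (a c : ℕ)
    (h : 100000000 * (a * a + 17592186044416 + c * c + 70368744177664) ≤
      47128225 * 17592186044416 + 100000000 * (8388608 * a + 16777216 * c)) :
    ‖1 - (((a : ℤ) : ℂ) + (((c : ℤ) - 8388608 : ℤ) : ℂ) * Complex.I) / 4194304‖ ≤
      6865 / 10000 := by
  have h3 : (100000000 * ((a : ℝ) * a + 17592186044416 + c * c + 70368744177664) ≤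
      47128225 * 17592186044416 + 100000000 * (8388608 * a + 16777216 * c)) := by
    exact_mod_cast h
  have e : 1 - (((a : ℤ) : ℂ) + (((c : ℤ) - 8388608 : ℤ) : ℂ) * Complex.I) / 4194304 =
      (((4194304 - (a : ℝ)) / 4194304 : ℝ) : ℂ) +
        (((8388608 - (c : ℝ)) / 4194304 : ℝ) : ℂ) * Complex.I := by
    push_cast
    ring
  rw [e]
  refine norm_le_of_sq _ _ _ (by norm_num) ?_
  have h4 : ((4194304 - (a : ℝ)) / 4194304) ^ 2 + ((8388608 - (c : ℝ)) / 4194304) ^ 2 =
      ((4194304 - (a : ℝ)) ^ 2 + (8388608 - (c : ℝ)) ^ 2) / 17592186044416 := by ring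
  rw [h4, div_le_iff₀ (by norm_num)]
  generalize (a : ℝ) = x at h3
  generalize (c : ℝ) = y at h3
  linarith [h3]

/-- A residual, in integers. -/
theorem resid_int (j r u : ℕ) (S : ℤ) (h : (r : ℤ) = S + 39614081257132168796771975168)
    (h1 : 2 * (r + 4194304 * j * 1125899906842624) ≤
      2 * (4194304 * j * u + 39614081257132168796771975168) + 4194304 * j)
    (h2 : 2 * (4194304 * j * u + 39614081257132168796771975168) ≤
      2 * (r + 4194304 * j * 1125899906842624) + 4194304 * j) :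
    |2 * (4194304 * j * ((u : ℤ) - 1125899906842624) - S)| ≤ 4194304 * j := by
  have h1' : (2 * ((r : ℤ) + 4194304 * j * 1125899906842624) ≤
      2 * (4194304 * j * u + 39614081257132168796771975168) + 4194304 * j) := by
    exact_mod_cast h1
  have h2' : (2 * (4194304 * j * (u : ℤ) + 39614081257132168796771975168) ≤
      2 * (r + 4194304 * j * 1125899906842624) + 4194304 * j) := by
    exact_mod_cast h2
  rw [h] at h1' h2'
  generalize (j : ℤ) = x at h1' h2' ⊢
  generalize (u : ℤ) = y at h1' h2' ⊢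
  rw [abs_le]
  have e : x * (y - 1125899906842624) = x * y - x * 1125899906842624 := by ring
  rw [mul_assoc 4194304 x, e]
  rw [mul_assoc 4194304 x, mul_assoc 4194304 x] at h1' h2'
  generalize x * y = z at h1' h2' ⊢
  constructor
  · linarith
  · linarith

/-- A residual. -/
theorem resid_le (j : ℕ) (S1 S2 g1 g2 : ℤ)
    (q1 : |2 * (4194304 * j * g1 - S1)| ≤ 4194304 * j)
    (q2 : |2 * (4194304 * j * g2 - S2)| ≤ 4194304 * j) :
    ‖(j : ℂ) * (((g1 : ℂ) + (g2 : ℂ) * Complex.I) / 281474976710656) -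
      ((S1 : ℂ) + (S2 : ℂ) * Complex.I) / (4194304 * 281474976710656)‖ ≤
      1 / 281474976710656 * j := by
  have e : (j : ℂ) * (((g1 : ℂ) + (g2 : ℂ) * Complex.I) / 281474976710656) -
      ((S1 : ℂ) + (S2 : ℂ) * Complex.I) / (4194304 * 281474976710656) =
      ((((4194304 * j * g1 - S1 : ℝ)) / (4194304 * 281474976710656) : ℝ) : ℂ) +
      ((((4194304 * j * g2 - S2 : ℝ)) / (4194304 * 281474976710656) : ℝ) : ℂ) *
        Complex.I := by
    push_cast
    ring
  rw [e]
  refine (norm_le_abs _ _).trans ?_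
  have k1 : |(4194304 * j * g1 - S1 : ℝ)| * 2 ≤ 4194304 * j := by
    have h : |(2 * (4194304 * j * g1 - S1) : ℝ)| ≤ 4194304 * j := by exact_mod_cast q1
    rw [abs_mul, abs_two] at h
    linarith
  have k2 : |(4194304 * j * g2 - S2 : ℝ)| * 2 ≤ 4194304 * j := by
    have h : |(2 * (4194304 * j * g2 - S2) : ℝ)| ≤ 4194304 * j := by exact_mod_cast q2
    rw [abs_mul, abs_two] at h
    linarith
  rw [abs_div, abs_div, abs_of_pos (show (0 : ℝ) < 4194304 * 281474976710656 by norm_num),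
    ← add_div, div_le_iff₀ (by norm_num)]
  linarith

/-- The last condition. -/
theorem last_le (n : ℕ) (hn1 : 1 ≤ n) (hn15 : n ≤ 32768) (S1 S2 : ℤ)
    (h : 10000000000 * ((4194304 * 281474976710656 + S1) ^ 2 + S2 ^ 2) ≤
      4712685201 * (4194304 * 281474976710656) ^ 2) :
    ‖1 + ((S1 : ℂ) + (S2 : ℂ) * Complex.I) / (4194304 * 281474976710656)‖ +
      1 / 281474976710656 * (n * (n - 1)) ≤ 6865 / 10000 := by
  have e : 1 + ((S1 : ℂ) + (S2 : ℂ) * Complex.I) / (4194304 * 281474976710656) =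
      ((((4194304 * 281474976710656 + S1 : ℝ)) / (4194304 * 281474976710656) : ℝ) : ℂ) +
      (((S2 : ℝ) / (4194304 * 281474976710656) : ℝ) : ℂ) * Complex.I := by
    push_cast
    ring
  have hl : 10000000000 * ((4194304 * 281474976710656 + S1 : ℝ) ^ 2 + (S2 : ℝ) ^ 2) ≤
      4712685201 * (4194304 * 281474976710656) ^ 2 := by
    exact_mod_cast h
  have h5 : ‖1 + ((S1 : ℂ) + (S2 : ℂ) * Complex.I) / (4194304 * 281474976710656)‖ ≤
      68649 / 100000 := by
    rw [e]
    refine norm_le_of_sq _ _ _ (by norm_num) ?_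
    rw [div_pow, div_pow, ← add_div, div_le_iff₀ (by norm_num)]
    generalize (4194304 * 281474976710656 + S1 : ℝ) ^ 2 + (S2 : ℝ) ^ 2 = X at hl
    linarith
  have h7 : (n : ℝ) ≤ 32768 := by exact_mod_cast hn15
  have h8 : (1 : ℝ) ≤ n := by exact_mod_cast hn1
  have h9 : (n : ℝ) * (n - 1) ≤ 32768 * 32768 := by nlinarith
  linarith

end Pool.Agent.Turan97
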