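import Mathlib
import Pool.Agent.Turan97.Check
import Pool.Agent.Turan97.Est

/-!
# A successful check gives complex numbers with small power sums
-/

namespace Pool.Agent.Turan97

open Finset

private theorem leaf_zero {a c u v r t : ℕ} (h : leaf 0 a c u v r t = true) :
    a = 0 ∧ c = 8388608 ∧ u = 1407374883553280 ∧ v = 1125899906842624 := by
  have h' : leaf0 a c u v = true := h
  unfold leaf0 at h'
  obtain ⟨h1, h2⟩ := Bool.and_eq_true_iff.1 h'
  obtain ⟨h2, h3⟩ := Bool.and_eq_true_iff.1 h2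
  obtain ⟨h3, h4⟩ := Bool.and_eq_true_iff.1 h3
  exact ⟨Nat.eq_of_beq_eq_true h1, Nat.eq_of_beq_eq_true h2, Nat.eq_of_beq_eq_true h3,
    Nat.eq_of_beq_eq_true h4⟩

private theorem leafR_spec {i u r : ℕ} (h : leafR i u r = true) :
    (2 * (r + 4194304 * i * 1125899906842624) ≤
      2 * (4194304 * i * u + 39614081257132168796771975168) + 4194304 * i) ∧
    (2 * (4194304 * i * u + 39614081257132168796771975168) ≤
      2 * (r + 4194304 * i * 1125899906842624) + 4194304 * i) := by
  unfold leafR at h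
  obtain ⟨h1, h2⟩ := Bool.and_eq_true_iff.1 h
  exact ⟨Nat.le_of_ble_eq_true h1, Nat.le_of_ble_eq_true h2⟩

private theorem leaf_pos {i a c u v r t : ℕ} (hi : 1 ≤ i) (h : leaf i a c u v r t = true) :
    (100000000 * (a * a + 17592186044416 + c * c + 70368744177664) ≤
      47128225 * 17592186044416 + 100000000 * (8388608 * a + 16777216 * c)) ∧
    (2 * (r + 4194304 * i * 1125899906842624) ≤
      2 * (4194304 * i * u + 39614081257132168796771975168) + 4194304 * i) ∧
    (2 * (4194304 * i * u + 39614081257132168796771975168) ≤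
      2 * (r + 4194304 * i * 1125899906842624) + 4194304 * i) ∧
    (2 * (t + 4194304 * i * 1125899906842624) ≤
      2 * (4194304 * i * v + 39614081257132168796771975168) + 4194304 * i) ∧
    (2 * (4194304 * i * v + 39614081257132168796771975168) ≤
      2 * (t + 4194304 * i * 1125899906842624) + 4194304 * i) := by
  have h0 : Nat.beq i 0 = false := by
    cases i with
    | zero => omega
    | succ i => rfl
  unfold leaf at h
  rw [h0, cond_false] at h
  obtain ⟨h1, h2⟩ := Bool.and_eq_true_iff.1 h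
  obtain ⟨h2, h3⟩ := Bool.and_eq_true_iff.1 h2
  unfold leafS at h1
  exact ⟨Nat.le_of_ble_eq_true h1, (leafR_spec h2).1, (leafR_spec h2).2, (leafR_spec h3).1,
    (leafR_spec h3).2⟩

theorem main (m : ℕ) (hm : m ≤ 15) (NA NC NU NV : ℕ) (h : check m NA NC NU NV = true) :
    ∃ z : Fin (2 ^ m) → ℂ, (∃ i, z i = 1) ∧
      ∀ k, 1 ≤ k → k ≤ 2 ^ m → ‖∑ i, z i ^ k‖ ≤ 6865 / 10000 := by
  classical
  unfold check at h
  simp only [Bool.and_eq_true, Nat.blt_eq] at h
  obtain ⟨⟨⟨hA, hC⟩, hU, hV⟩, h2⟩ := h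
  unfold check2 at h2
  rw [Bool.and_eq_true] at h2
  obtain ⟨hlast, hchk⟩ := h2
  set n : ℕ := 2 ^ m with hn
  have hn1 : 1 ≤ n := Nat.one_le_two_pow
  have hn15 : n ≤ 32768 := by
    have : 2 ^ m ≤ 2 ^ 15 := Nat.pow_le_pow_right (by norm_num) hm
    simpa using this
  set X : ℕ := 2 ^ 96 with hX
  have hXv : X = 79228162514264337593543950336 := by rw [hX]; norm_num
  have hX2 : 2 ≤ X := by omega
  set qa : ℕ := 2 ^ 24 with hqa
  have hqav : qa = 16777216 := by rw [hqa]; norm_num
  set qu : ℕ := 2 ^ 52 with hqu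
  have hquv : qu = 4503599627370496 := by rw [hqu]; norm_num
  set A := spread qa X m NA with hAd
  set C := spread qa X m NC with hCd
  set U := spread qu X m NU with hUd
  set V := spread qu X m NV with hVd
  set O := ones X n with hOd
  set P := ones X (2 * n) with hPd
  set R := bigR A C U V O P with hRd
  set T := bigT A C U V O P with hTd
  have eA := spread_eq qa X m NA hA
  have eC := spread_eq qa X m NC hC
  have eU := spread_eq qu X m NU hU
  have eV := spread_eq qu X m NV hV
  rw [← hAd] at eA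
  rw [← hCd] at eC
  rw [← hUd] at eU
  rw [← hVd] at eV
  have eO := ones_eq X n hX2
  have eP := ones_eq X (2 * n) hX2
  rw [← hOd] at eO
  rw [← hPd] at eP
  have hlf := chk_spec leaf qa qu X (by omega) (by omega) (by omega) m 0 NA NC NU NV
    (R % X ^ n) (T % X ^ n) hA hC hU hV (Nat.mod_lt _ (pow_pos (by omega) _))
    (Nat.mod_lt _ (pow_pos (by omega) _)) hchk
  rw [← hn] at hlf
  set a : ℕ → ℕ := fun k => dg qa NA k with ha
  set c : ℕ → ℕ := fun k => dg qa NC k with hc
  set u : ℕ → ℕ := fun k => dg qu NU k with hu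
  set v : ℕ → ℕ := fun k => dg qu NV k with hv
  have hlf' : ∀ k < n, leaf k (a k) (c k) (u k) (v k) (dg X R k) (dg X T k) = true := by
    intro k hk
    have := hlf k hk
    rwa [zero_add, dg_mod _ _ _ _ hk, dg_mod _ _ _ _ hk] at this
  have h0 := leaf_zero (hlf' 0 (by omega))
  -- integer sequences
  set fr : ℕ → ℤ := fun k => (a k : ℤ) with hfr
  set fi : ℕ → ℤ := fun k => (c k : ℤ) - 8388608 with hfi
  set gr : ℕ → ℤ := fun k => (u k : ℤ) - 1125899906842624 with hgr
  set gi : ℕ → ℤ := fun k => (v k : ℤ) - 1125899906842624 with hgi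
  have hfr0 : fr 0 = 0 := by simp only [hfr]; rw [h0.1]; rfl
  have hfi0 : fi 0 = 0 := by simp only [hfi]; rw [h0.2.1]; norm_num
  have hgr0 : gr 0 = 281474976710656 := by simp only [hgr]; rw [h0.2.2.1]; norm_num
  have hgi0 : gi 0 = 0 := by simp only [hgi]; rw [h0.2.2.2]; norm_num
  have bfr : ∀ k, |fr k| ≤ 16777216 := by
    intro k
    have := dg_lt qa NA k (by omega)
    simp only [hfr, ha]
    rw [abs_le]; omega
  have bfi : ∀ k, |fi k| ≤ 16777216 := by
    intro k
    have := dg_lt qa NC k (by omega)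
    simp only [hfi, hc]
    rw [abs_le]; omega
  have bgr : ∀ k, |gr k| ≤ 4503599627370496 := by
    intro k
    have := dg_lt qu NU k (by omega)
    simp only [hgr, hu]
    rw [abs_le]; omega
  have bgi : ∀ k, |gi k| ≤ 4503599627370496 := by
    intro k
    have := dg_lt qu NV k (by omega)
    simp only [hgi, hv]
    rw [abs_le]; omega
  have hcf : ∀ (f g : ℕ → ℤ), (∀ k, |f k| ≤ 16777216) → (∀ k, |g k| ≤ 4503599627370496) → ∀ s,
      |cf n f g s| ≤ 2475880078570760549798248448 := by
    intro f g hf hg s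
    have h1 := cf_abs_le n f g 16777216 4503599627370496 (by norm_num) (by norm_num) hf hg s
    refine h1.trans ?_
    have : (n : ℤ) ≤ 32768 := by exact_mod_cast hn15
    nlinarith
  -- evaluation
  have vA : ((A : ℕ) : ℤ) = ∑ k ∈ range n, fr k * (X : ℤ) ^ k := by
    rw [eA]; push_cast; rfl
  have vO : ((O : ℕ) : ℤ) = ∑ k ∈ range n, (X : ℤ) ^ k := by
    rw [eO]; push_cast; rfl
  have vP : ((P : ℕ) : ℤ) = ∑ k ∈ range (2 * n), (X : ℤ) ^ k := by
    rw [eP]; push_cast; rfl
  have vC : ((C : ℕ) : ℤ) - 8388608 * O = ∑ k ∈ range n, fi k * (X : ℤ) ^ k := by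
    rw [vO, eC, Finset.mul_sum]
    push_cast
    rw [← Finset.sum_sub_distrib]
    refine Finset.sum_congr rfl (fun k _ => ?_)
    simp only [hfi, hc]; ring
  have vU : ((U : ℕ) : ℤ) - 1125899906842624 * O = ∑ k ∈ range n, gr k * (X : ℤ) ^ k := by
    rw [vO, eU, Finset.mul_sum]
    push_cast
    rw [← Finset.sum_sub_distrib]
    refine Finset.sum_congr rfl (fun k _ => ?_)
    simp only [hgr, hu]; ring
  have vV : ((V : ℕ) : ℤ) - 1125899906842624 * O = ∑ k ∈ range n, gi k * (X : ℤ) ^ k := by
    rw [vO, eV, Finset.mul_sum]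
    push_cast
    rw [← Finset.sum_sub_distrib]
    refine Finset.sum_congr rfl (fun k _ => ?_)
    simp only [hgi, hv]; ring
  have dR : ∀ j, j < 2 * n → ((dg X R j : ℕ) : ℤ) =
      cf n fr gr j - cf n fi gi j + 39614081257132168796771975168 := by
    intro j hj
    rw [hRd]
    unfold bigR
    refine dg_toNat X (by omega) (2 * n) j hj
      (fun s => cf n fr gr s - cf n fi gi s + 39614081257132168796771975168) ?_ _ _ ?_
    · intro s
      have h1 := abs_le.1 (hcf fr gr bfr bgr s)
      have h2 := abs_le.1 (hcf fi gi bfi bgi s)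
      rw [hXv]
      constructor <;> push_cast <;> linarith [h1.1, h1.2, h2.1, h2.2]
    · have e1 := conv_eval n fr gr (X : ℤ)
      have e2 := conv_eval n fi gi (X : ℤ)
      rw [← vA, ← vU] at e1
      rw [← vC, ← vV] at e2
      have e3 : ∑ s ∈ range (2 * n), (cf n fr gr s - cf n fi gi s +
          39614081257132168796771975168) * (X : ℤ) ^ s =
          ∑ s ∈ range (2 * n), cf n fr gr s * (X : ℤ) ^ s -
            ∑ s ∈ range (2 * n), cf n fi gi s * (X : ℤ) ^ s +
            39614081257132168796771975168 * ∑ s ∈ range (2 * n), (X : ℤ) ^ s := by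
        rw [Finset.mul_sum, ← Finset.sum_sub_distrib, ← Finset.sum_add_distrib]
        refine Finset.sum_congr rfl (fun s _ => ?_)
        ring
      rw [e3, ← e1, ← e2, ← vP]
      push_cast
      ring
  have dT : ∀ j, j < 2 * n → ((dg X T j : ℕ) : ℤ) =
      cf n fr gi j + cf n fi gr j + 39614081257132168796771975168 := by
    intro j hj
    rw [hTd]
    unfold bigT
    refine dg_toNat X (by omega) (2 * n) j hj
      (fun s => cf n fr gi s + cf n fi gr s + 39614081257132168796771975168) ?_ _ _ ?_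
    · intro s
      have h1 := abs_le.1 (hcf fr gi bfr bgi s)
      have h2 := abs_le.1 (hcf fi gr bfi bgr s)
      rw [hXv]
      constructor <;> push_cast <;> linarith [h1.1, h1.2, h2.1, h2.2]
    · have e1 := conv_eval n fr gi (X : ℤ)
      have e2 := conv_eval n fi gr (X : ℤ)
      rw [← vA, ← vV] at e1
      rw [← vC, ← vU] at e2
      have e3 : ∑ s ∈ range (2 * n), (cf n fr gi s + cf n fi gr s +
          39614081257132168796771975168) * (X : ℤ) ^ s =
          ∑ s ∈ range (2 * n), cf n fr gi s * (X : ℤ) ^ s +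
            ∑ s ∈ range (2 * n), cf n fi gr s * (X : ℤ) ^ s +
            39614081257132168796771975168 * ∑ s ∈ range (2 * n), (X : ℤ) ^ s := by
        rw [Finset.mul_sum, ← Finset.sum_add_distrib, ← Finset.sum_add_distrib]
        refine Finset.sum_congr rfl (fun s _ => ?_)
        ring
      rw [e3, ← e1, ← e2, ← vP]
      push_cast
      ring
  -- complex sequences
  set f : ℕ → ℂ := fun k => (fr k : ℂ) + (fi k : ℂ) * Complex.I with hf
  set g : ℕ → ℂ := fun k => (gr k : ℂ) + (gi k : ℂ) * Complex.I with hg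
  set s : ℕ → ℂ := fun k => 1 - f k / 4194304 with hs
  set β : ℕ → ℂ := fun k => g k / 281474976710656 with hβ
  have prodsum : ∀ (ι : Finset ℕ) (p q : ℕ → ℕ), ∑ l ∈ ι, (1 - s (p l)) * β (q l) =
      (((∑ l ∈ ι, fr (p l) * gr (q l) - ∑ l ∈ ι, fi (p l) * gi (q l) : ℤ) : ℂ) +
        ((∑ l ∈ ι, fr (p l) * gi (q l) + ∑ l ∈ ι, fi (p l) * gr (q l) : ℤ) : ℂ) * Complex.I) /
        (4194304 * 281474976710656) := by
    intro ι p q
    rw [← Finset.sum_sub_distrib, ← Finset.sum_add_distrib]
    push_cast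
    rw [Finset.sum_mul, ← Finset.sum_add_distrib, Finset.sum_div]
    refine Finset.sum_congr rfl (fun l _ => ?_)
    simp only [hs, hβ, hf, hg]
    have hI : Complex.I * Complex.I = -1 := Complex.I_mul_I
    field_simp
    ring_nf
    rw [Complex.I_sq]
    ring
  refine exists_points_of_approx n hn1 s β (6865 / 10000) (1 / 281474976710656) (by norm_num)
    (by norm_num) ?_ ?_ ?_ ?_
  · -- size of s
    intro k hk hkn
    exact size_le (a k) (c k) (leaf_pos hk (hlf' k hkn)).1
  · simp only [hβ, hg]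
    rw [hgr0, hgi0]
    norm_num
  · -- residual
    intro j hj hjn
    have h1 := leaf_pos hj (hlf' j hjn)
    have h2 := dR j (by omega)
    have h3 := dT j (by omega)
    rw [cf_lt n fr gr hfr0 j hjn, cf_lt n fi gi hfi0 j hjn] at h2
    rw [cf_lt n fr gi hfr0 j hjn, cf_lt n fi gr hfi0 j hjn] at h3
    rw [prodsum (range j) (fun l => j - l) (fun l => l)]
    set S1 : ℤ := ∑ l ∈ range j, fr (j - l) * gr l - ∑ l ∈ range j, fi (j - l) * gi l with hS1
    set S2 : ℤ := ∑ l ∈ range j, fr (j - l) * gi l + ∑ l ∈ range j, fi (j - l) * gr l with hS2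
    obtain ⟨-, r1, r2, t1, t2⟩ := h1
    have q1 : |2 * (4194304 * j * gr j - S1)| ≤ 4194304 * j := resid_int j _ _ S1 h2 r1 r2
    have q2 : |2 * (4194304 * j * gi j - S2)| ≤ 4194304 * j := resid_int j _ _ S2 h3 t1 t2
    exact resid_le j S1 S2 (gr j) (gi j) q1 q2
  · -- last condition
    have h2 := dR n (by omega)
    have h3 := dT n (by omega)
    rw [cf_self n hn1 fr gr, cf_self n hn1 fi gi] at h2
    rw [cf_self n hn1 fr gi, cf_self n hn1 fi gr] at h3
    rw [prodsum (range (n - 1)) (fun l => n - (l + 1)) (fun l => l + 1)]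
    set S1 : ℤ := ∑ l ∈ range (n - 1), fr (n - (l + 1)) * gr (l + 1) -
      ∑ l ∈ range (n - 1), fi (n - (l + 1)) * gi (l + 1) with hS1
    set S2 : ℤ := ∑ l ∈ range (n - 1), fr (n - (l + 1)) * gi (l + 1) +
      ∑ l ∈ range (n - 1), fi (n - (l + 1)) * gr (l + 1) with hS2
    unfold lastOk at hlast
    rw [decide_eq_true_eq, h2, h3] at hlast
    have e1 : ((4194304 * 281474976710656 : ℤ) + (S1 + 39614081257132168796771975168) -
        39614081257132168796771975168) = 4194304 * 281474976710656 + S1 := by ring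
    have e2 : ((S2 + 39614081257132168796771975168) -
        39614081257132168796771975168 : ℤ) = S2 := by ring
    rw [e1, e2] at hlast
    exact last_le n hn1 hn15 S1 S2 hlast

end Pool.Agent.Turan97
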